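import Mathlib
import Pool.Agent.Helper44.WNH.Dual
import Pool.Graph.R_pool_sql_team_seeded_3997aac3.Results.MP_14d743_an.NoEigenvalues

/-!
# Powers of weakly numerically hypercyclic operators: infinitely many eigenvalues on a circle

Let `T` be a bounded operator on a complex Banach space and let `R` be a part of `T` (the operator
induced by `T` on a quotient of a closed invariant subspace, for example `T` itself, a restriction
or a quotient) such that `R` or its adjoint has infinitely many eigenvalues on a circle `|z| = ρ`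
with `ρ > 1`.  Then all the powers `T ^ n`, `n ≥ 1`, are weakly numerically hypercyclic (`T` itself
too).  So every part of a counterexample to Q1, and its adjoint, have only finitely many
eigenvalues on each circle of radius `ρ > 1`.

No hypothesis is made on the arguments of the eigenvalues (they may all be roots of unity times
`ρ`, or pairwise rationally related), on norms of linear combinations of eigenvectors or on the
rest of the spectrum, and `ρ` need not be the spectral radius.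

Idea of the proof: an infinite set of unimodular numbers `ζ_j` has return times `k` at which any
finite number of the `ζ_j ^ k` is very near to `1` while another one is far from `1`
(`Helper44.WNH.bohr`); the vector `x` is a series of the differences
`e_j / f(e_j) - e_0 / f(e_0)` of normalized eigenvectors, `f` a functional which is not too small
on a chosen sequence of eigenvectors, with coefficients chosen one after the other such that
`f(T ^ k x)` is near to a prescribed number.  For eigenvalues of the adjoint the roles of vectors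
and functionals are exchanged (`Helper44.WNH.dense_orbitG` treats both cases at once).
-/

set_option autoImplicit false

open Set Filter Topology

namespace Pool.Agent.Results.MP_1bd42a_an.InfinitelyManyEigenvalues

universe u

/-- Numerical hypercyclicity: a dense numerical orbit at a pair with `‖x‖ = ‖f‖ = f x = 1`. -/
def NumHyp {X : Type u} [NormedAddCommGroup X] [NormedSpace ℂ X] (T : X →L[ℂ] X) : Prop :=
  ∃ (x : X) (f : X →L[ℂ] ℂ), ‖x‖ = 1 ∧ ‖f‖ = 1 ∧ f x = 1 ∧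
    Dense (range fun n : ℕ => f ((T ^ n) x))

/-- Weak numerical hypercyclicity: similarity to a numerically hypercyclic operator on a complex
Banach space. -/
def WeaklyNumHyp {X : Type u} [NormedAddCommGroup X] [NormedSpace ℂ X] (T : X →L[ℂ] X) : Prop :=
  ∃ (Y : Type u) (_ : NormedAddCommGroup Y) (_ : NormedSpace ℂ Y) (_ : CompleteSpace Y)
    (S : Y →L[ℂ] Y) (J : X ≃L[ℂ] Y), (∀ x, J.symm (S (J x)) = T x) ∧ NumHyp S

/-- `R` is a part of `T`: it is induced by `T` on a quotient of a closed invariant subspace.  The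
operator `A` on the Banach space `Z` is the restriction of `T` to the closed subspace `J Z`, and
`R` is the quotient of `A` by the kernel of `Q`. -/
def IsPart {X Y : Type u} [NormedAddCommGroup X] [NormedSpace ℂ X] [NormedAddCommGroup Y]
    [NormedSpace ℂ Y] (R : Y →L[ℂ] Y) (T : X →L[ℂ] X) : Prop :=
  ∃ (Z : Type u) (_ : NormedAddCommGroup Z) (_ : NormedSpace ℂ Z) (_ : CompleteSpace Z)
    (A : Z →L[ℂ] Z) (J : Z →L[ℂ] X) (Q : Z →L[ℂ] Y),
    (∃ c : ℝ, 0 < c ∧ ∀ z, c * ‖z‖ ≤ ‖J z‖) ∧ Function.Surjective Q ∧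
      (∀ z, J (A z) = T (J z)) ∧ ∀ z, Q (A z) = R (Q z)

section

variable {X Y Z : Type u} [NormedAddCommGroup X] [NormedSpace ℂ X] [NormedAddCommGroup Y]
  [NormedSpace ℂ Y] [NormedAddCommGroup Z] [NormedSpace ℂ Z]

theorem pow_conj {A : Y →L[ℂ] Y} {B : X →L[ℂ] X} {J : Y →L[ℂ] X} (h : ∀ z, J (A z) = B (J z))
    (n : ℕ) (z : Y) : J ((A ^ n) z) = (B ^ n) (J z) := by
  induction n generalizing z with
  | zero => simp
  | succ n ih =>
    rw [pow_succ, pow_succ]
    change J ((A ^ n) (A z)) = (B ^ n) (B (J z))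
    rw [ih, h]

/-- a functional extends along an embedding -/
theorem extend [CompleteSpace Z] {J : Z →L[ℂ] X} {c : ℝ} (hc : 0 < c)
    (hJ : ∀ z, c * ‖z‖ ≤ ‖J z‖) (φ : Z →L[ℂ] ℂ) : ∃ f : X →L[ℂ] ℂ, ∀ z, f (J z) = φ z := by
  have hinj : Function.Injective J := by
    intro a b hab
    have h1 := hJ (a - b)
    rw [map_sub, hab, sub_self, norm_zero] at h1
    have h2 : ‖a - b‖ ≤ 0 := by
      by_contra hcon
      push Not at hcon
      have := mul_pos hc hcon
      linarith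
    exact sub_eq_zero.1 (norm_eq_zero.1 (le_antisymm h2 (norm_nonneg _)))
  let φ' : LinearMap.range (J : Z →ₗ[ℂ] X) →ₗ[ℂ] ℂ :=
    (φ : Z →ₗ[ℂ] ℂ) ∘ₗ ((LinearEquiv.ofInjective (J : Z →ₗ[ℂ] X) hinj).symm :
      LinearMap.range (J : Z →ₗ[ℂ] X) →ₗ[ℂ] Z)
  have hφ' : ∀ z, φ' ⟨J z, z, rfl⟩ = φ z := by
    intro z
    change φ ((LinearEquiv.ofInjective (J : Z →ₗ[ℂ] X) hinj).symm ⟨J z, z, rfl⟩) = φ z
    congr 1
    rw [LinearEquiv.symm_apply_eq]
    rfl
  let ψ : LinearMap.range (J : Z →ₗ[ℂ] X) →L[ℂ] ℂ := φ'.mkContinuous (‖φ‖ / c) (by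
    rintro ⟨_, z, rfl⟩
    have e : φ' ⟨(J : Z →ₗ[ℂ] X) z, z, rfl⟩ = φ z := hφ' z
    rw [e]
    refine (φ.le_opNorm z).trans ?_
    rw [div_mul_eq_mul_div, le_div_iff₀ hc, mul_assoc, mul_comm ‖z‖]
    gcongr
    exact hJ z)
  obtain ⟨g, hg, -⟩ := exists_extension_norm_eq _ ψ
  refine ⟨g, fun z => ?_⟩
  have := hg ⟨J z, z, rfl⟩
  exact this.trans (hφ' z)

/-- numerical orbits of powers of parts are numerical orbits of powers -/
theorem part_orbit {R : Y →L[ℂ] Y} {T : X →L[ℂ] X} (hR : IsPart R T) (n : ℕ)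
    (h : ∃ (y : Y) (g : Y →L[ℂ] ℂ), Dense (range fun k : ℕ => g (((R ^ n) ^ k) y))) :
    ∃ (x : X) (f : X →L[ℂ] ℂ), Dense (range fun k : ℕ => f (((T ^ n) ^ k) x)) := by
  obtain ⟨Z, _, _, _, A, J, Q, ⟨c, hc, hJ⟩, hQ, hJA, hQA⟩ := hR
  obtain ⟨y, g, hd⟩ := h
  obtain ⟨z, rfl⟩ := hQ y
  obtain ⟨f, hf⟩ := extend hc hJ (g ∘L Q)
  refine ⟨J z, f, ?_⟩
  have : (fun k : ℕ => f (((T ^ n) ^ k) (J z))) = fun k : ℕ => g (((R ^ n) ^ k) (Q z)) := by
    funext k
    rw [← pow_mul, ← pow_mul, ← pow_conj hJA, hf, ← pow_conj hQA]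
    rfl
  rw [this]
  exact hd

/-- the `n`-th powers of the points of an infinite set form an infinite set -/
theorem infinite_pow {S S' : Set ℂ} (hS : S.Infinite) {n : ℕ} (hn : 0 < n)
    (h : ∀ z ∈ S, z ^ n ∈ S') : S'.Infinite := by
  intro hfin
  apply hS
  have h1 : ((fun z : ℂ => z ^ n) ⁻¹' S').Finite := by
    refine hfin.preimage' fun b _ => ?_
    refine (((Polynomial.nthRoots n b).toFinset).finite_toSet).subset ?_
    intro z hz
    rw [Finset.mem_coe, Multiset.mem_toFinset, Polynomial.mem_nthRoots hn]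
    exact hz
  exact h1.subset fun z hz => h z hz

/-- infinitely many eigenvalues on a circle give a dense numerical orbit -/
theorem dense_of_infinite [CompleteSpace Y] {R : Y →L[ℂ] Y} {ρ : ℝ} (hρ : 1 < ρ)
    (hinf : {μ : ℂ | ‖μ‖ = ρ ∧ ∃ p : Y, p ≠ 0 ∧ R p = μ • p}.Infinite) :
    ∃ (y : Y) (g : Y →L[ℂ] ℂ), Dense (range fun k : ℕ => g ((R ^ k) y)) := by
  have hρ0 : 0 < ρ := by linarith
  have hρc : (ρ : ℂ) ≠ 0 := by exact_mod_cast hρ0.ne'
  let μ : ℕ → ℂ := fun j => (hinf.natEmbedding _ j : ℂ)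
  have hμ1 : ∀ j, ‖μ j‖ = ρ := fun j => (hinf.natEmbedding _ j).2.1
  have hμ2 : ∀ j, ∃ p : Y, p ≠ 0 ∧ R p = μ j • p := fun j => (hinf.natEmbedding _ j).2.2
  have hμi : Function.Injective μ := fun a b hab =>
    (hinf.natEmbedding _).injective (Subtype.ext hab)
  choose p hp0 hp using hμ2
  have hnorm : ∀ j, ‖((‖p j‖⁻¹ : ℝ) : ℂ) • p j‖ = 1 := by
    intro j
    have h := norm_pos_iff.2 (hp0 j)
    rw [norm_smul, Complex.norm_real, Real.norm_of_nonneg (by positivity),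
      inv_mul_cancel₀ h.ne']
  refine Pool.Agent.Helper44.WNH.dense_orbitG (ContinuousLinearMap.id ℂ (Y →L[ℂ] ℂ))
    ContinuousLinearMap.norm_id_le R hρ (fun j => μ j / (ρ : ℂ)) ?_ ?_
    (fun j => ((‖p j‖⁻¹ : ℝ) : ℂ) • p j) hnorm ?_ ?_
  · intro j
    rw [norm_div, hμ1, Complex.norm_real, Real.norm_of_nonneg hρ0.le, div_self hρ0.ne']
  · intro a b hab
    apply hμi
    have h : μ a / (ρ : ℂ) = μ b / (ρ : ℂ) := hab
    exact (div_left_inj' hρc).1 h
  · intro j
    rw [map_smul, hp, mul_div_cancel₀ _ hρc, smul_comm]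
  · intro j
    obtain ⟨g, h1, h2⟩ := exists_dual_vector ℂ (((‖p j‖⁻¹ : ℝ) : ℂ) • p j)
      (by rw [hnorm]; exact one_ne_zero)
    refine ⟨g, h1.le, ?_⟩
    change 9 / 10 ≤ ‖g (((‖p j‖⁻¹ : ℝ) : ℂ) • p j)‖
    rw [h2, hnorm]
    norm_num

set_option synthInstance.maxHeartbeats 400000 in
/-- infinitely many eigenvalues of the adjoint on a circle give a dense numerical orbit -/
theorem dense_of_infinite_adjoint [CompleteSpace Y] {R : Y →L[ℂ] Y} {ρ : ℝ} (hρ : 1 < ρ)
    (hinf : {μ : ℂ | ‖μ‖ = ρ ∧ ∃ φ : Y →L[ℂ] ℂ, φ ≠ 0 ∧ ∀ y, φ (R y) = μ * φ y}.Infinite) :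
    ∃ (y : Y) (g : Y →L[ℂ] ℂ), Dense (range fun k : ℕ => g ((R ^ k) y)) := by
  have hρ0 : 0 < ρ := by linarith
  have hρc : (ρ : ℂ) ≠ 0 := by exact_mod_cast hρ0.ne'
  let μ : ℕ → ℂ := fun j => (hinf.natEmbedding _ j : ℂ)
  have hμ1 : ∀ j, ‖μ j‖ = ρ := fun j => (hinf.natEmbedding _ j).2.1
  have hμ2 : ∀ j, ∃ φ : Y →L[ℂ] ℂ, φ ≠ 0 ∧ ∀ y, φ (R y) = μ j * φ y :=
    fun j => (hinf.natEmbedding _ j).2.2
  have hμi : Function.Injective μ := fun a b hab =>
    (hinf.natEmbedding _).injective (Subtype.ext hab)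
  choose p hp0 hp using hμ2
  have hnorm : ∀ j, ‖((‖p j‖⁻¹ : ℝ) : ℂ) • p j‖ = 1 := by
    intro j
    have h := norm_pos_iff.2 (hp0 j)
    rw [norm_smul, Complex.norm_real, Real.norm_of_nonneg (by positivity),
      inv_mul_cancel₀ h.ne']
  let S : (Y →L[ℂ] ℂ) →L[ℂ] (Y →L[ℂ] ℂ) := (ContinuousLinearMap.compL ℂ Y Y ℂ).flip R
  have hS : ∀ φ : Y →L[ℂ] ℂ, ∀ y, S φ y = φ (R y) := fun φ y => rfl
  have hSn : ∀ (n : ℕ) (φ : Y →L[ℂ] ℂ) (y : Y), (S ^ n) φ y = φ ((R ^ n) y) := by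
    intro n
    induction n with
    | zero => intro φ y; simp
    | succ n ih =>
      intro φ y
      rw [pow_succ, pow_succ']
      change (S ^ n) (S φ) y = φ (R ((R ^ n) y))
      rw [ih, hS]
  obtain ⟨φ, y, hd⟩ := Pool.Agent.Helper44.WNH.dense_orbitG
    (NormedSpace.inclusionInDoubleDual ℂ Y) (NormedSpace.inclusionInDoubleDual_norm_le ℂ Y)
    S hρ (fun j => μ j / (ρ : ℂ)) (by
      intro j
      rw [norm_div, hμ1, Complex.norm_real, Real.norm_of_nonneg hρ0.le, div_self hρ0.ne']) (by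
      intro a b hab
      apply hμi
      have h : μ a / (ρ : ℂ) = μ b / (ρ : ℂ) := hab
      exact (div_left_inj' hρc).1 h)
    (fun j => ((‖p j‖⁻¹ : ℝ) : ℂ) • p j) hnorm (by
      intro j
      have h1 : S (p j) = μ j • p j := by
        ext y
        exact hp j y
      rw [map_smul, h1, mul_div_cancel₀ _ hρc, smul_comm]) (by
      intro j
      obtain ⟨x, hx1, hx2⟩ := (((‖p j‖⁻¹ : ℝ) : ℂ) • p j).exists_lt_apply_of_lt_opNorm
        (show (9 / 10 : ℝ) < ‖((‖p j‖⁻¹ : ℝ) : ℂ) • p j‖ by rw [hnorm]; norm_num)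
      exact ⟨x, hx1.le, hx2.le⟩)
  refine ⟨y, φ, ?_⟩
  have h1 : (fun n : ℕ => (NormedSpace.inclusionInDoubleDual ℂ Y y) ((S ^ n) φ)) =
      fun n : ℕ => φ ((R ^ n) y) := by
    funext n
    exact hSn n φ y
  rw [h1] at hd
  exact hd

end

/-- **Main result.** Let `T` be a bounded operator on a complex Banach space with a part `R` (for
example `R = T`) such that `R` or its adjoint has infinitely many eigenvalues on a circle of radius
`ρ > 1`.  Then all the powers `T ^ n`, `n ≥ 1`, are weakly numerically hypercyclic. -/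
theorem result (X : Type u) [NormedAddCommGroup X] [NormedSpace ℂ X] [CompleteSpace X]
    (T : X →L[ℂ] X) (Y : Type u) [NormedAddCommGroup Y] [NormedSpace ℂ Y] [CompleteSpace Y]
    (R : Y →L[ℂ] Y) (hR : IsPart R T) (ρ : ℝ) (hρ : 1 < ρ)
    (hinf : {μ : ℂ | ‖μ‖ = ρ ∧ ((∃ p : Y, p ≠ 0 ∧ R p = μ • p) ∨
      ∃ φ : Y →L[ℂ] ℂ, φ ≠ 0 ∧ ∀ y, φ (R y) = μ * φ y)}.Infinite)
    (n : ℕ) (hn : 0 < n) : WeaklyNumHyp (T ^ n) := by
  have hcase : {μ : ℂ | ‖μ‖ = ρ ∧ ∃ p : Y, p ≠ 0 ∧ R p = μ • p}.Infinite ∨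
      {μ : ℂ | ‖μ‖ = ρ ∧ ∃ φ : Y →L[ℂ] ℂ, φ ≠ 0 ∧ ∀ y, φ (R y) = μ * φ y}.Infinite := by
    by_contra hcon
    rw [not_or, Set.not_infinite, Set.not_infinite] at hcon
    refine hinf ((hcon.1.union hcon.2).subset ?_)
    rintro μ ⟨h1, h2 | h2⟩
    · exact Or.inl ⟨h1, h2⟩
    · exact Or.inr ⟨h1, h2⟩
  have key : ∃ (y : Y) (g : Y →L[ℂ] ℂ), Dense (range fun k : ℕ => g (((R ^ n) ^ k) y)) := by
    rcases hcase with h | h
    · refine dense_of_infinite (one_lt_pow₀ hρ hn.ne') (infinite_pow h hn ?_)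
      rintro z ⟨hz, p, hp0, hp⟩
      refine ⟨?_, p, hp0, Pool.Agent.Helper44.WNH.pow_eigen hp n⟩
      rw [norm_pow, hz]
    · refine dense_of_infinite_adjoint (one_lt_pow₀ hρ hn.ne') (infinite_pow h hn ?_)
      rintro z ⟨hz, φ, hφ0, hφ⟩
      refine ⟨?_, φ, hφ0, ?_⟩
      · rw [norm_pow, hz]
      · intro y
        clear hn
        induction n generalizing y with
        | zero => simp
        | succ n ih =>
          rw [pow_succ]
          change φ ((R ^ n) (R y)) = _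
          rw [ih, hφ, pow_succ, mul_assoc]
  obtain ⟨x, f, hxf⟩ := part_orbit hR n key
  exact MP_14d743_an.NoEigenvalues.weaklyNumHyp_of_dense hxf

end Pool.Agent.Results.MP_1bd42a_an.InfinitelyManyEigenvalues
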